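import Pool.Agent.H68.L.R_pool_sql_team_seeded_b0a926ef.R413.TI.Stm

/-!
Project GE (helper413): the 2-isogeny Selmer ranks of the twists of ANY curve `y² = x³ + a x² + b x` over
`ℚ` by products of primes which split completely in the field generated by the square roots of `-1` and of
the bad primes. Statements of the pieces.
-/

set_option autoImplicit false

namespace Pool.Agent.R413.TI

open WeierstrassCurve

/-- the classes of the problem -/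
def CL (a B : ℤ) : Set ℤ := {b₁ | Squarefree b₁ ∧ b₁ ∣ B ∧ Sol ℝ a b₁ (B / b₁) ∧
  ∀ (p : ℕ) [Fact p.Prime], Sol ℚ_[p] a b₁ (B / b₁)}

/-- the curve `y² = x³ + a x² + b x` -/
def CE (a b : ℤ) : WeierstrassCurve ℚ := ⟨0, (a : ℚ), 0, (b : ℚ), 0⟩

/-- GE-SPL: a prime factor `p` of `D` (`b` and `a² - 4 b` are squares modulo `p`) -/
def SPLG : Prop := ∀ (p : ℕ) [Fact p.Prime] (a b D D' b₁ b₂ : ℤ) (e : ZMod p), p ≠ 2 →
  ¬ (p : ℤ) ∣ b → ¬ (p : ℤ) ∣ a ^ 2 - 4 * b → IsSquare ((b : ℤ) : ZMod p) →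
  e ^ 2 + (a : ZMod p) * e + (b : ZMod p) = 0 → D = p * D' → ¬ (p : ℤ) ∣ D' → Squarefree b₁ →
  b₁ * b₂ = b * D ^ 2 →
  (¬ (p : ℤ) ∣ b₁ → (Sol ℚ_[p] (a * D) b₁ b₂ ↔ IsSquare (b₁ : ZMod p))) ∧
  (∀ c : ℤ, b₁ = p * c →
    (Sol ℚ_[p] (a * D) b₁ b₂ ↔ IsSquare ((c : ZMod p) * (D' : ZMod p) * e)))

/-- GE-SYM: the symbols of the roots for the two curves are the same -/
def SYM : Prop := ∀ (p : ℕ) [Fact p.Prime] (a b e e' : ZMod p), p ≠ 2 → b ≠ 0 →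
  a ^ 2 - 4 * b ≠ 0 → IsSquare (-1 : ZMod p) → IsSquare b → e ^ 2 + a * e + b = 0 →
  e' ^ 2 - 2 * a * e' + (a ^ 2 - 4 * b) = 0 → (IsSquare e ↔ IsSquare e')

/-- GE-GRP: the ranks and the indices -/
def GRP : Prop := ∀ (A B : Type) [AddCommGroup A] [AddCommGroup B] [Module.Finite ℤ A]
  [Module.Finite ℤ B] (φ : A →+ B) (ψ : B →+ A) (T : A) (T' : B),
  (∀ x, ψ (φ x) = x + x) → (∀ y, φ (ψ y) = y + y) → T ≠ 0 → T' ≠ 0 →
  (∀ x, φ x = 0 ↔ x = 0 ∨ x = T) → (∀ y, ψ y = 0 ↔ y = 0 ∨ y = T') →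
  ψ.range.index ≠ 0 ∧ φ.range.index ≠ 0 ∧
    4 * 2 ^ Module.finrank ℤ A = ψ.range.index * φ.range.index

/-- the class of a point -/
def cl (a b : ℤ) : (CE a b).toAffine.Point → ℚ
  | .zero => 1
  | .some x _ _ => if x = 0 then (b : ℚ) else x

/-- GE-IMA: the two isogenies, and their images -/
def IMA : Prop := ∀ a b : ℤ, b ≠ 0 → a ^ 2 - 4 * b ≠ 0 →
  ∃ (φ : (CE a b).toAffine.Point →+ (CE (-2 * a) (a ^ 2 - 4 * b)).toAffine.Point)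
    (ψ : (CE (-2 * a) (a ^ 2 - 4 * b)).toAffine.Point →+ (CE a b).toAffine.Point)
    (T : (CE a b).toAffine.Point) (T' : (CE (-2 * a) (a ^ 2 - 4 * b)).toAffine.Point),
    (∀ x, ψ (φ x) = x + x) ∧ (∀ y, φ (ψ y) = y + y) ∧ T ≠ 0 ∧ T' ≠ 0 ∧
    (∀ x, φ x = 0 ↔ x = 0 ∨ x = T) ∧ (∀ y, ψ y = 0 ↔ y = 0 ∨ y = T') ∧
    (∀ P, IsSquare (cl a b P) → P ∈ ψ.range) ∧
    (∀ P, IsSquare (cl (-2 * a) (a ^ 2 - 4 * b) P) → P ∈ φ.range)

/-- GE-IMB: the class is a homomorphism modulo squares -/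
def IMB : Prop := ∀ a b : ℤ, b ≠ 0 → a ^ 2 - 4 * b ≠ 0 → ∀ P Q : (CE a b).toAffine.Point,
  cl a b P ≠ 0 ∧ cl a b (-P) = cl a b P ∧ IsSquare (cl a b P * cl a b Q * cl a b (P + Q))

/-- GE-IMC: the classes of points are classes of the problem -/
def IMC : Prop := ∀ a b : ℤ, b ≠ 0 → a ^ 2 - 4 * b ≠ 0 → ∀ P : (CE a b).toAffine.Point,
  ∃ b₁ ∈ CL a b, IsSquare ((b₁ : ℚ) * cl a b P)

end Pool.Agent.R413.TI
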