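import Mathlib
import Pool.Agent.H68.L.R_pool_sql_team_seeded_b0a926ef.R413.TI.StmG

set_option autoImplicit false

namespace Pool.Agent.R413.TI

open WeierstrassCurve

namespace ImbP

theorem key (b x₁ x₂ x₃ l n : ℚ) (hb : b ≠ 0)
    (h0 : x₁ * x₂ * x₃ = n ^ 2) (h1 : x₁ * x₂ + x₁ * x₃ + x₂ * x₃ = b - 2 * l * n) :
    IsSquare ((if x₁ = 0 then b else x₁) * (if x₂ = 0 then b else x₂) *
      (if x₃ = 0 then b else x₃)) := by
  by_cases e1 : x₁ = 0
  · have hn : n = 0 := by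
      rw [e1] at h0
      have : n ^ 2 = 0 := by linarith
      exact pow_eq_zero_iff (two_ne_zero) |>.mp this
    rw [e1, hn] at h1
    have h2 : x₂ * x₃ = b := by linarith
    have e2 : x₂ ≠ 0 := fun h => hb (by rw [← h2, h, zero_mul])
    have e3 : x₃ ≠ 0 := fun h => hb (by rw [← h2, h, mul_zero])
    rw [if_pos e1, if_neg e2, if_neg e3]
    exact ⟨b, by rw [mul_assoc, h2]⟩
  by_cases e2 : x₂ = 0
  · have hn : n = 0 := by
      rw [e2] at h0
      have : n ^ 2 = 0 := by linarith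
      exact pow_eq_zero_iff (two_ne_zero) |>.mp this
    rw [e2, hn] at h1
    have h2 : x₁ * x₃ = b := by linarith
    have e3 : x₃ ≠ 0 := fun h => hb (by rw [← h2, h, mul_zero])
    rw [if_neg e1, if_pos e2, if_neg e3]
    exact ⟨b, by rw [← h2]; ring⟩
  by_cases e3 : x₃ = 0
  · have hn : n = 0 := by
      rw [e3] at h0
      have : n ^ 2 = 0 := by linarith
      exact pow_eq_zero_iff (two_ne_zero) |>.mp this
    rw [e3, hn] at h1
    have h2 : x₁ * x₂ = b := by linarith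
    rw [if_neg e1, if_neg e2, if_pos e3]
    exact ⟨b, by rw [← h2]⟩
  rw [if_neg e1, if_neg e2, if_neg e3, h0]
  exact ⟨n, by ring⟩

theorem cl_neg (a b : ℤ) (P : (CE a b).toAffine.Point) : cl a b (-P) = cl a b P := by
  rcases P with _ | ⟨x, y, h⟩
  · rfl
  · rfl

theorem cl_ne (a b : ℤ) (hb : b ≠ 0) (P : (CE a b).toAffine.Point) : cl a b P ≠ 0 := by
  rcases P with _ | ⟨x, y, h⟩
  · simp [cl]
  · unfold cl
    simp only
    split_ifs with h1
    · exact_mod_cast hb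
    · exact h1

end ImbP

open ImbP in
theorem imb : IMB := by
  intro a b hb hd P Q
  refine ⟨cl_ne a b hb P, cl_neg a b P, ?_⟩
  have hb' : (b : ℚ) ≠ 0 := by exact_mod_cast hb
  rcases P with _ | ⟨x₁, y₁, h₁⟩
  · change IsSquare (cl a b 0 * cl a b Q * cl a b (0 + Q))
    rw [zero_add]
    exact ⟨cl a b Q, by simp [cl]⟩
  rcases Q with _ | ⟨x₂, y₂, h₂⟩
  · change IsSquare (cl a b (Affine.Point.some _ _ h₁) * cl a b 0 *
      cl a b ((Affine.Point.some _ _ h₁) + 0))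
    rw [add_zero]
    exact ⟨cl a b (Affine.Point.some _ _ h₁), by simp [cl]⟩
  by_cases hxy : x₁ = x₂ ∧ y₁ = (CE a b).toAffine.negY x₂ y₂
  · rw [Affine.Point.add_of_Y_eq hxy.1 hxy.2]
    obtain ⟨hx, hy⟩ := hxy
    subst hx
    exact ⟨if x₁ = 0 then (b : ℚ) else x₁, by simp [cl]⟩
  · rw [Affine.Point.add_some hxy]
    have hp := Affine.addPolynomial_slope h₁.left h₂.left hxy
    rw [Affine.addPolynomial_eq] at hp
    obtain ⟨l, hl⟩ : ∃ l, l = (CE a b).toAffine.slope x₁ x₂ y₁ y₂ := ⟨_, rfl⟩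
    obtain ⟨x₃, hx₃⟩ : ∃ x₃, x₃ = (CE a b).toAffine.addX x₁ x₂
      ((CE a b).toAffine.slope x₁ x₂ y₁ y₂) := ⟨_, rfl⟩
    rw [← hx₃, ← hl] at hp
    have he : ∀ t : ℚ, t ^ 3 + (-l ^ 2 + a) * t ^ 2 + (2 * x₁ * l ^ 2 - 2 * y₁ * l + b) * t +
        (-x₁ ^ 2 * l ^ 2 + 2 * x₁ * y₁ * l - y₁ ^ 2) = (t - x₁) * (t - x₂) * (t - x₃) := by
      intro t
      have h := congrArg (Polynomial.eval t) hp
      simp [Cubic.toPoly, CE] at h
      linarith
    have h0 := he 0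
    have h1 := he 1
    have h2 := he (-1)
    have := key b x₁ x₂ x₃ l (y₁ - l * x₁) hb' (by linarith) (by linarith)
    rw [hx₃] at this
    exact this

end Pool.Agent.R413.TI
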