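import Pool.Agent.H68.L.R_pool_sql_team_seeded_b0a926ef.R413.TI.Stm

/-!
TI-GOOD (helper515). The character sums are copied from `Pool/Agent/H126G/ZC.lean`.
-/

set_option autoImplicit false

namespace Pool.Agent.R413.TI

open Polynomial

namespace GoodAux

section charsum

variable {F : Type} [Field F] [Fintype F] [DecidableEq F]

theorem sum_char_sq_sub (hF : ringChar F ≠ 2) {c : F} (hc : c ≠ 0) :
    ∑ x : F, quadraticChar F (x ^ 2 - c) = -1 := by
  have h1 : ∑ x : F, quadraticChar F (x ^ 2 - c)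
      = ∑ y : F, (quadraticChar F y + 1) * quadraticChar F (y - c) := by
    rw [← Finset.sum_fiberwise (s := Finset.univ) (g := fun x : F => x ^ 2)]
    refine Finset.sum_congr rfl fun y _ => ?_
    rw [← quadraticChar_card_sqrts hF y]
    rw [Finset.sum_congr (g := fun _ => quadraticChar F (y - c)) rfl]
    · rw [Finset.sum_const, nsmul_eq_mul]
      congr 2
      have : ({x : F | x ^ 2 = y} : Set F).toFinset = Finset.univ.filter (fun x : F => x ^ 2 = y) := by
        ext x; simp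
      rw [this]
    · intro x hx
      simp only [Finset.mem_filter, Finset.mem_univ, true_and] at hx
      rw [hx]
  rw [h1]
  simp only [add_mul, one_mul, Finset.sum_add_distrib]
  have h2 : ∑ y : F, quadraticChar F (y - c) = 0 := by
    rw [← quadraticChar_sum_zero hF]
    exact Equiv.sum_comp (Equiv.subRight c) (fun y => quadraticChar F y)
  have h3 : ∑ y : F, quadraticChar F y * quadraticChar F (y - c) = -1 := by
    rw [← Equiv.sum_comp (Equiv.mulLeft₀ c hc)]
    have hneg : quadraticChar F (-1) * quadraticChar F (-1) = 1 := by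
      rw [← map_mul]; simp
    have h4 : ∀ z : F, quadraticChar F (Equiv.mulLeft₀ c hc z) * quadraticChar F (Equiv.mulLeft₀ c hc z - c)
        = quadraticChar F (-1) * (quadraticChar F z * quadraticChar F (1 - z)) := by
      intro z
      simp only [Equiv.mulLeft₀_apply]
      have h5 : quadraticChar F c * quadraticChar F c = 1 := by
        rw [← sq]; exact quadraticChar_sq_one hc
      have h6 : c * z - c = c * (-1 * (1 - z)) := by ring
      rw [h6, map_mul, map_mul, map_mul]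
      linear_combination (quadraticChar F z * quadraticChar F (-1) * quadraticChar F (1 - z)) * h5
    simp only [h4]
    rw [← Finset.mul_sum]
    have h7 := jacobiSum_nontrivial_inv (quadraticChar_ne_one hF)
    rw [(quadraticChar_isQuadratic F).inv] at h7
    unfold jacobiSum at h7
    rw [h7]
    linear_combination (-1) * hneg
  rw [h2, h3]
  norm_num

theorem sum_char_quadratic (hF : ringChar F ≠ 2) (a b c : F) (ha : a ≠ 0)
    (hΔ : b ^ 2 - 4 * a * c ≠ 0) :
    ∑ x : F, quadraticChar F (a * x ^ 2 + b * x + c) = -quadraticChar F a := by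
  have h2 : (2 : F) ≠ 0 := Ring.two_ne_zero hF
  have h1 : ∀ x : F, quadraticChar F (a * x ^ 2 + b * x + c) =
      quadraticChar F a * quadraticChar F ((2 * a * x + b) ^ 2 - (b ^ 2 - 4 * a * c)) := by
    intro x
    have h3 : (2 * a * x + b) ^ 2 - (b ^ 2 - 4 * a * c) = (2 ^ 2 * a) * (a * x ^ 2 + b * x + c) := by ring
    have h5 : quadraticChar F a * quadraticChar F a = 1 := by
      rw [← sq]; exact quadraticChar_sq_one ha
    have h6 : quadraticChar F (2 ^ 2) = 1 := quadraticChar_sq_one' h2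
    rw [h3, map_mul, map_mul, h6, one_mul, ← mul_assoc, h5, one_mul]
  rw [Finset.sum_congr rfl fun x _ => h1 x, ← Finset.mul_sum]
  have h3 : ∑ x : F, quadraticChar F ((2 * a * x + b) ^ 2 - (b ^ 2 - 4 * a * c)) =
      ∑ y : F, quadraticChar F (y ^ 2 - (b ^ 2 - 4 * a * c)) := by
    have h4 : ∑ x : F, quadraticChar F ((2 * a * x + b) ^ 2 - (b ^ 2 - 4 * a * c)) =
        ∑ y : F, quadraticChar F ((y + b) ^ 2 - (b ^ 2 - 4 * a * c)) :=
      Fintype.sum_equiv (Equiv.mulLeft₀ (2 * a) (mul_ne_zero h2 ha)) _ _ (fun x => rfl)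
    rw [h4]
    exact Equiv.sum_comp (Equiv.addRight b) (fun y => quadraticChar F (y ^ 2 - (b ^ 2 - 4 * a * c)))
  rw [h3, sum_char_sq_sub hF hΔ]
  ring

/-- a value at a nonzero square which is a square -/
theorem exists_val (hF : ringChar F ≠ 2) (a b c : F) (ha : ¬ IsSquare a) (hc : ¬ IsSquare c)
    (hΔ : b ^ 2 - 4 * a * c ≠ 0) :
    ∃ m : F, m ≠ 0 ∧ IsSquare (a * (m ^ 2) ^ 2 + b * m ^ 2 + c) := by
  by_contra hcon
  push Not at hcon
  have ha0 : a ≠ 0 := by rintro rfl; exact ha IsSquare.zero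
  have hc0 : c ≠ 0 := by rintro rfl; exact hc IsSquare.zero
  have hneg : ∀ z : F, ¬ IsSquare z → quadraticChar F z = -1 := by
    intro z hz
    exact (quadraticChar_neg_one_iff_not_isSquare (a := z)).2 hz
  have hle1 : ∀ z : F, quadraticChar F z ≤ 1 := by
    intro z
    rcases quadraticChar_isQuadratic F z with h | h | h <;> rw [h] <;> norm_num
  have key : ∀ x : F, quadraticChar F (a * x ^ 2 + b * x + c) ≤
      -quadraticChar F x - (if x = 0 then 1 else 0) := by
    intro x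
    by_cases hx : x = 0
    · subst hx
      have : a * (0 : F) ^ 2 + b * 0 + c = c := by ring
      rw [this, hneg c hc]
      simp
    · rw [if_neg hx, sub_zero]
      by_cases hs : IsSquare x
      · obtain ⟨m, rfl⟩ := hs
        have hm : m ≠ 0 := by rintro rfl; exact hx (by ring)
        have h1 := hneg _ (hcon m hm)
        have e : a * (m * m) ^ 2 + b * (m * m) + c = a * (m ^ 2) ^ 2 + b * m ^ 2 + c := by ring
        rw [e, h1]
        have := hle1 (m * m)
        linarith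
      · rw [hneg x hs]
        simpa using hle1 _
  have hsum := Finset.sum_le_sum (s := Finset.univ) fun x _ => key x
  rw [sum_char_quadratic hF a b c ha0 hΔ, hneg a ha, Finset.sum_sub_distrib,
    Finset.sum_neg_distrib, quadraticChar_sum_zero hF] at hsum
  simp at hsum

end charsum

section padic

variable {l : ℕ} [hl : Fact l.Prime]

theorem norm_lt_one {x : ℤ_[l]} : ‖x‖ < 1 ↔ PadicInt.toZMod x = 0 := by
  rw [← PadicInt.mem_nonunits, ← IsLocalRing.mem_maximalIdeal, ← PadicInt.ker_toZMod,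
    RingHom.mem_ker]

theorem norm_eq_one {x : ℤ_[l]} (h : PadicInt.toZMod x ≠ 0) : ‖x‖ = 1 := by
  refine le_antisymm (PadicInt.norm_le_one x) ?_
  by_contra hcon
  rw [not_le] at hcon
  exact h (norm_lt_one.1 hcon)

theorem sq_lift (hl2 : l ≠ 2) (u : ℤ_[l]) (s : ZMod l) (hs : s ≠ 0)
    (h : s ^ 2 = PadicInt.toZMod u) : ∃ w : ℤ_[l], w ^ 2 = u ∧ PadicInt.toZMod w = s := by
  have hto : PadicInt.toZMod ((s.val : ℕ) : ℤ_[l]) = s := by
    rw [map_natCast, ZMod.natCast_zmod_val]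
  set S : ℤ_[l] := ((s.val : ℕ) : ℤ_[l]) with hS
  have e1 : aeval S (X ^ 2 - C u : ℤ_[l][X]) = S ^ 2 - u := by simp
  have e2 : aeval S (derivative (X ^ 2 - C u : ℤ_[l][X])) = 2 * S := by
    simp; norm_num
  have h2 : (2 : ZMod l) ≠ 0 := by
    intro h
    have h3 : ((2 : ℕ) : ZMod l) = 0 := by exact_mod_cast h
    rw [ZMod.natCast_eq_zero_iff] at h3
    exact hl2 ((Nat.prime_dvd_prime_iff_eq hl.out Nat.prime_two).1 h3)
  have n1 : ‖S ^ 2 - u‖ < 1 := by
    rw [norm_lt_one, map_sub, map_pow, hto, h, sub_self]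
  have n2 : ‖2 * S‖ = 1 := by
    apply norm_eq_one
    rw [map_mul, hto, map_ofNat]
    exact mul_ne_zero h2 hs
  have hnorm : ‖aeval S (X ^ 2 - C u : ℤ_[l][X])‖ <
      ‖aeval S (derivative (X ^ 2 - C u : ℤ_[l][X]))‖ ^ 2 := by
    rw [e1, e2, n2, one_pow]
    exact n1
  obtain ⟨w, hw1, hw2, -⟩ := hensels_lemma hnorm
  refine ⟨w, ?_, ?_⟩
  · have : aeval w (X ^ 2 - C u : ℤ_[l][X]) = w ^ 2 - u := by simp
    rw [this, sub_eq_zero] at hw1
    exact hw1
  · rw [e2, n2] at hw2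
    have h4 := norm_lt_one.1 hw2
    rw [map_sub, hto, sub_eq_zero] at h4
    exact h4

end padic

end GoodAux

open GoodAux

theorem good : GOOD := by
  intro l hl a b₁ b₂ hl2 hb1 hb2 hΔ
  have hF : ringChar (ZMod l) ≠ 2 := by rwa [ZMod.ringChar_zmod_n]
  have cast0 : ∀ n : ℤ, ¬ (l : ℤ) ∣ n → (n : ZMod l) ≠ 0 := by
    intro n hn h
    exact hn ((ZMod.intCast_zmod_eq_zero_iff_dvd n l).1 h)
  have h2 : (2 : ZMod l) ≠ 0 := Ring.two_ne_zero hF
  have hb1' := cast0 b₁ hb1
  have hb2' := cast0 b₂ hb2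
  have hΔ' : (a : ZMod l) ^ 2 - 4 * (b₁ : ZMod l) * (b₂ : ZMod l) ≠ 0 := by
    have := cast0 _ hΔ
    push_cast at this
    exact this
  by_cases hs1 : IsSquare (b₁ : ZMod l)
  · obtain ⟨s, hs⟩ := hs1
    have hs0 : s ≠ 0 := by rintro rfl; exact hb1' (by rw [hs]; ring)
    obtain ⟨w, hw, -⟩ := sq_lift hl2 (b₁ : ℤ_[l]) s hs0 (by rw [map_intCast, hs]; ring)
    refine ⟨(w : ℚ_[l]), 1, 0, Or.inl one_ne_zero, ?_⟩
    have := congrArg (fun z : ℤ_[l] => (z : ℚ_[l])) hw
    push_cast at this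
    rw [this]
    ring
  by_cases hs2 : IsSquare (b₂ : ZMod l)
  · obtain ⟨s, hs⟩ := hs2
    have hs0 : s ≠ 0 := by rintro rfl; exact hb2' (by rw [hs]; ring)
    obtain ⟨w, hw, -⟩ := sq_lift hl2 (b₂ : ℤ_[l]) s hs0 (by rw [map_intCast, hs]; ring)
    refine ⟨(w : ℚ_[l]), 0, 1, Or.inr one_ne_zero, ?_⟩
    have := congrArg (fun z : ℤ_[l] => (z : ℚ_[l])) hw
    push_cast at this
    rw [this]
    ring
  obtain ⟨m, hm, t, ht⟩ := exists_val hF (b₁ : ZMod l) (a : ZMod l) (b₂ : ZMod l) hs1 hs2 hΔ'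
  by_cases ht0 : t = 0
  · -- a double value: go to the root
    subst ht0
    have hf : (b₁ : ZMod l) * (m ^ 2) ^ 2 + a * m ^ 2 + b₂ = 0 := by rw [ht]; ring
    have hs : (2 * (b₁ : ZMod l) * m ^ 2 + a) ^ 2 = (a : ZMod l) ^ 2 - 4 * b₁ * b₂ := by
      linear_combination (4 * (b₁ : ZMod l)) * hf
    have hs0 : 2 * (b₁ : ZMod l) * m ^ 2 + a ≠ 0 := by
      intro h
      rw [h] at hs
      exact hΔ' (by rw [← hs]; ring)
    obtain ⟨δ, hδ, hδ'⟩ := sq_lift hl2 ((a : ℤ_[l]) ^ 2 - 4 * (b₁ : ℤ_[l]) * (b₂ : ℤ_[l]))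
      (2 * (b₁ : ZMod l) * m ^ 2 + a) hs0 (by
        rw [hs, map_sub, map_mul, map_mul, map_pow, map_intCast, map_intCast, map_intCast,
          map_ofNat])
    have hunit : IsUnit (2 * (b₁ : ℤ_[l])) := by
      rw [PadicInt.isUnit_iff]
      apply norm_eq_one
      rw [map_mul, map_intCast, map_ofNat]
      exact mul_ne_zero h2 hb1'
    obtain ⟨x, hx⟩ : ∃ x : ℤ_[l], 2 * (b₁ : ℤ_[l]) * x = δ - a := by
      obtain ⟨v, hv⟩ := hunit
      refine ⟨(v⁻¹ : ℤ_[l]ˣ) * (δ - a), ?_⟩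
      rw [← hv, ← mul_assoc, Units.mul_inv, one_mul]
    have hx' : PadicInt.toZMod x = m ^ 2 := by
      have h3 := congrArg (PadicInt.toZMod (p := l)) hx
      rw [map_mul, map_mul, map_sub, map_intCast, map_intCast, map_ofNat, hδ'] at h3
      have h4 : 2 * (b₁ : ZMod l) * (PadicInt.toZMod x - m ^ 2) = 0 := by
        linear_combination h3
      have h5 := (mul_eq_zero.1 h4).resolve_left (mul_ne_zero h2 hb1')
      exact sub_eq_zero.1 h5
    obtain ⟨M, hM, hM'⟩ := sq_lift hl2 x m hm hx'.symm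
    have hroot : (b₁ : ℤ_[l]) * x ^ 2 + a * x + b₂ = 0 := by
      have h6 : 4 * (b₁ : ℤ_[l]) * ((b₁ : ℤ_[l]) * x ^ 2 + a * x + b₂) = 0 := by
        linear_combination (2 * (b₁ : ℤ_[l]) * x + δ + a) * hx + hδ
      have h7 : (4 * (b₁ : ℤ_[l])) ≠ 0 := by
        have h8 := hunit.ne_zero
        intro h9
        apply h8
        have h10 : (2 : ℤ_[l]) * (2 * (b₁ : ℤ_[l])) = 0 := by linear_combination h9
        rcases mul_eq_zero.1 h10 with h11 | h11
        · exact absurd h11 (by norm_num)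
        · exact h11
      exact (mul_eq_zero.1 h6).resolve_left h7
    refine ⟨0, (M : ℚ_[l]), 1, Or.inr one_ne_zero, ?_⟩
    rw [← hM] at hroot
    have := congrArg (fun z : ℤ_[l] => (z : ℚ_[l])) hroot
    push_cast at this
    linear_combination (-1 : ℚ_[l]) * this
  · have hto : PadicInt.toZMod ((m.val : ℕ) : ℤ_[l]) = m := by
      rw [map_natCast, ZMod.natCast_zmod_val]
    obtain ⟨w, hw, -⟩ := sq_lift hl2 ((b₁ : ℤ_[l]) * ((m.val : ℕ) : ℤ_[l]) ^ 4 +
      a * ((m.val : ℕ) : ℤ_[l]) ^ 2 + b₂) t ht0 (by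
        rw [map_add, map_add, map_mul, map_mul, map_pow, map_pow, hto, map_intCast, map_intCast,
          map_intCast]
        linear_combination -ht)
    refine ⟨(w : ℚ_[l]), ((m.val : ℕ) : ℚ_[l]), 1, Or.inr one_ne_zero, ?_⟩
    have := congrArg (fun z : ℤ_[l] => (z : ℚ_[l])) hw
    push_cast at this
    rw [this]
    ring

end Pool.Agent.R413.TI
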