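import Pool.Agent.H68.L.R_pool_sql_team_seeded_b0a926ef.R413.TI.Stm

/-!
# TI-SPLIT1: local solubility at the split primes, first curve (MP_e2b281_nt)
-/

set_option autoImplicit false

namespace Pool.Agent.R413.TI.Split1P

open Polynomial PadicInt

variable {p : ℕ} [hp : Fact p.Prime]

lemma toZ_zero (x : ℤ_[p]) : toZMod x = 0 ↔ (p : ℤ_[p]) ∣ x := by
  rw [← RingHom.mem_ker, ker_toZMod, maximalIdeal_eq_span_p, Ideal.mem_span_singleton]

lemma toZ_unit (x : ℤ_[p]) : ‖x‖ = 1 ↔ toZMod x ≠ 0 := by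
  rw [Ne, toZ_zero, ← PadicInt.norm_lt_one_iff_dvd, not_lt]
  exact ⟨fun h => h.ge, fun h => le_antisymm (PadicInt.norm_le_one _) h⟩

lemma two_ne (hp2 : p ≠ 2) : (2 : ZMod p) ≠ 0 := by
  intro h
  have h1 : ((2 : ℕ) : ZMod p) = 0 := by exact_mod_cast h
  rw [ZMod.natCast_eq_zero_iff] at h1
  exact hp2 ((Nat.prime_dvd_prime_iff_eq hp.out Nat.prime_two).1 h1)

/-- square roots of squares modulo `p` -/
lemma hens (hp2 : p ≠ 2) (u : ℤ_[p]) (y : ZMod p) (hy : y ≠ 0) (h : toZMod u = y ^ 2) :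
    ∃ m : ℤ_[p], m ^ 2 = u ∧ toZMod m = y := by
  obtain ⟨s, hs⟩ := ZMod.ringHom_surjective (toZMod (p := p)) y
  have e1 : ∀ w : ℤ_[p], (aeval w) (X ^ 2 - C u : ℤ_[p][X]) = w ^ 2 - u := by intro w; simp
  have e2 : ∀ w : ℤ_[p], (aeval w) (derivative (X ^ 2 - C u : ℤ_[p][X])) = 2 * w := by
    intro w; simp; norm_num
  have h3 : ‖2 * s‖ = 1 := by
    rw [toZ_unit, map_mul, hs, map_ofNat]
    exact mul_ne_zero (two_ne hp2) hy
  have h4 : ‖s ^ 2 - u‖ < 1 := by
    rw [PadicInt.norm_lt_one_iff_dvd, ← toZ_zero, map_sub, map_pow, hs, h, sub_self]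
  obtain ⟨z, hz, hz2, -⟩ := hensels_lemma (p := p) (R := ℤ_[p]) (F := X ^ 2 - C u) (a := s) (by
    rw [e1, e2, h3]
    simpa using h4)
  rw [e1] at hz
  refine ⟨z, sub_eq_zero.1 hz, ?_⟩
  rw [e2, h3, PadicInt.norm_lt_one_iff_dvd, ← toZ_zero, map_sub, sub_eq_zero, hs] at hz2
  exact hz2

/-- primitive solutions -/
lemma prim {a b₁ b₂ : ℤ} (h : Sol ℚ_[p] a b₁ b₂) : ∃ N M e : ℤ_[p], (toZMod M ≠ 0 ∨ toZMod e ≠ 0) ∧
    N ^ 2 = (b₁ : ℤ_[p]) * M ^ 4 + a * M ^ 2 * e ^ 2 + b₂ * e ^ 4 := by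
  obtain ⟨N, M, e, h0, h⟩ := h
  obtain ⟨m, hm0, hM, he, h1⟩ : ∃ m : ℚ_[p], m ≠ 0 ∧ ‖M / m‖ ≤ 1 ∧ ‖e / m‖ ≤ 1 ∧
      (‖M / m‖ = 1 ∨ ‖e / m‖ = 1) := by
    rcases le_total ‖M‖ ‖e‖ with h2 | h2
    · have he : e ≠ 0 := by
        rintro rfl
        rw [norm_zero] at h2
        have : M = 0 := norm_le_zero_iff.1 h2
        simp [this] at h0
      refine ⟨e, he, ?_, ?_, Or.inr ?_⟩
      · rw [norm_div]
        exact div_le_one_of_le₀ h2 (norm_nonneg _)
      · rw [div_self he]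
        simp
      · rw [div_self he]
        simp
    · have hM : M ≠ 0 := by
        rintro rfl
        rw [norm_zero] at h2
        have : e = 0 := norm_le_zero_iff.1 h2
        simp [this] at h0
      refine ⟨M, hM, ?_, ?_, Or.inl ?_⟩
      · rw [div_self hM]
        simp
      · rw [norm_div]
        exact div_le_one_of_le₀ h2 (norm_nonneg _)
      · rw [div_self hM]
        simp
  have hN : (N / m ^ 2) ^ 2 = (b₁ : ℚ_[p]) * (M / m) ^ 4 + a * (M / m) ^ 2 * (e / m) ^ 2 +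
      b₂ * (e / m) ^ 4 := by
    field_simp
    rw [h]
    ring
  let M' : ℤ_[p] := ⟨M / m, hM⟩
  let e' : ℤ_[p] := ⟨e / m, he⟩
  have hN1 : ‖N / m ^ 2‖ ≤ 1 := by
    have h3 : (N / m ^ 2) ^ 2 =
        (((b₁ : ℤ_[p]) * M' ^ 4 + a * M' ^ 2 * e' ^ 2 + b₂ * e' ^ 4 : ℤ_[p]) : ℚ_[p]) := by
      rw [hN]
      push_cast
      rfl
    have h4 : ‖(N / m ^ 2) ^ 2‖ ≤ 1 := by
      rw [h3]
      exact PadicInt.norm_le_one _
    rw [norm_pow] at h4
    exact (sq_le_one_iff₀ (norm_nonneg _)).1 h4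
  refine ⟨⟨N / m ^ 2, hN1⟩, M', e', ?_, ?_⟩
  · rw [← toZ_unit, ← toZ_unit]
    exact h1
  · apply Subtype.ext
    push_cast
    exact hN

lemma p_ne : (p : ℤ_[p]) ≠ 0 := by
  exact_mod_cast hp.out.ne_zero

lemma dvd_of_sq {x y : ℤ_[p]} (h : x ^ 2 = p * y) : ∃ z, x = p * z := by
  have h1 : toZMod x = 0 := by
    have h2 := congrArg (toZMod (p := p)) h
    rw [map_pow, map_mul, map_natCast, ZMod.natCast_self, zero_mul] at h2
    exact pow_eq_zero_iff two_ne_zero |>.1 h2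
  exact (toZ_zero x).1 h1

end Pool.Agent.R413.TI.Split1P

namespace Pool.Agent.R413.TI

open Split1P PadicInt in
theorem split1 : SPLIT1 := by
  intro p hp D D' b₁ b₂ ρ hp4 hρ hD hD' hsq hb
  have hpi : Prime (p : ℤ) := Nat.prime_iff_prime_int.1 hp.out
  have hp2 : p ≠ 2 := by rintro rfl; omega
  have h2 : (2 : ZMod p) ≠ 0 := two_ne hp2
  have h7 : (7 : ZMod p) ≠ 0 := by
    intro h
    have h1 : ((7 : ℕ) : ZMod p) = 0 := by exact_mod_cast h
    rw [ZMod.natCast_eq_zero_iff] at h1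
    have := (Nat.prime_dvd_prime_iff_eq hp.out (by norm_num : Nat.Prime 7)).1 h1
    omega
  have hρ0 : ρ ≠ 0 := by
    rintro rfl
    apply h7
    linear_combination hρ
  obtain ⟨i, hi⟩ : ∃ i : ZMod p, i ^ 2 = -1 := by
    obtain ⟨i, hi⟩ := (ZMod.exists_sq_eq_neg_one_iff (p := p)).2 (by omega)
    exact ⟨i, by rw [hi]; ring⟩
  have hi0 : i ≠ 0 := by
    rintro rfl
    have : (1 : ZMod p) = 0 := by linear_combination hi
    exact one_ne_zero this
  have hD0 : (D' : ZMod p) ≠ 0 := by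
    rw [Ne, ZMod.intCast_zmod_eq_zero_iff_dvd]
    exact hD'
  have hw1 : (1 - ρ : ZMod p) ≠ 0 := by
    intro h
    have h1 : (8 : ZMod p) = 0 := by
      have : ρ = 1 := by linear_combination -h
      rw [this] at hρ
      linear_combination hρ
    have h3 : (2 : ZMod p) ^ 3 = 0 := by linear_combination h1
    exact h2 (pow_eq_zero_iff three_ne_zero |>.1 h3)
  have hp0 : (p : ℤ_[p]) ≠ 0 := p_ne
  have hpz : (p : ZMod p) = 0 := ZMod.natCast_self p
  have hDp : ((D : ℤ) : ZMod p) = 0 := by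
    rw [hD]; push_cast; rw [hpz, zero_mul]
  refine ⟨fun hb1 => ⟨fun h => ?_, fun h => ?_⟩, fun c hc => ⟨fun h => ?_, fun h => ?_⟩⟩
  · -- necessity, unit case
    obtain ⟨k, hk⟩ : (p : ℤ) ^ 2 ∣ b₂ := by
      have h1 : IsCoprime ((p : ℤ) ^ 2) b₁ :=
        ((Prime.coprime_iff_not_dvd hpi).2 hb1).pow_left
      apply h1.dvd_of_dvd_mul_left
      rw [hb, hD]
      exact ⟨112 * D' ^ 2, by ring⟩
    have hbk : b₁ * k = 112 * D' ^ 2 := by
      have h1 : (p : ℤ) ^ 2 ≠ 0 := pow_ne_zero _ hpi.ne_zero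
      apply mul_left_cancel₀ h1
      rw [hk, hD] at hb
      linear_combination hb
    obtain ⟨N, M, e, h0, h⟩ := prim h
    have hb10 : (b₁ : ZMod p) ≠ 0 := by
      rw [Ne, ZMod.intCast_zmod_eq_zero_iff_dvd]
      exact hb1
    by_cases hM : toZMod M = 0
    · obtain ⟨M', rfl⟩ := (toZ_zero M).1 hM
      have he : toZMod e ≠ 0 := by
        rcases h0 with h0 | h0
        · exact absurd hM h0
        · exact h0
      rw [hk, hD] at h
      push_cast at h
      obtain ⟨N', rfl⟩ := dvd_of_sq (x := N) (y := b₁ * p ^ 3 * M' ^ 4 +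
        21 * (p * D') * p * M' ^ 2 * e ^ 2 + p * k * e ^ 4) (by rw [h]; ring)
      have h1 : N' ^ 2 = p ^ 2 * b₁ * M' ^ 4 + 21 * p * D' * M' ^ 2 * e ^ 2 + k * e ^ 4 := by
        apply mul_left_cancel₀ (pow_ne_zero 2 hp0)
        linear_combination h
      have h3 := congrArg (toZMod (p := p)) h1
      simp only [map_pow, map_mul, map_add, map_natCast, map_intCast, map_ofNat, hpz] at h3
      have h4 : (toZMod N') ^ 2 = (k : ZMod p) * (toZMod e) ^ 4 := by
        linear_combination h3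
      have h5 : (b₁ : ZMod p) * k = 112 * (D' : ZMod p) ^ 2 := by exact_mod_cast congrArg (Int.cast (R := ZMod p)) hbk
      have h6 : (b₁ : ZMod p) * (toZMod N') ^ 2 = (4 * D' * i * ρ * (toZMod e) ^ 2) ^ 2 := by
        linear_combination (b₁ : ZMod p) * h4 + (toZMod e) ^ 4 * h5 -
          16 * (D' : ZMod p) ^ 2 * (toZMod e) ^ 4 * (ρ ^ 2 * hi - hρ)
      have hN0 : toZMod N' ≠ 0 := by
        intro h7'
        rw [h7'] at h6
        have h8 : (4 * D' * i * ρ * (toZMod e) ^ 2 : ZMod p) = 0 := by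
          have : (4 * D' * i * ρ * (toZMod e) ^ 2 : ZMod p) ^ 2 = 0 := by rw [← h6]; ring
          exact pow_eq_zero_iff two_ne_zero |>.1 this
        have h9 : (4 : ZMod p) ≠ 0 := by
          have : (4 : ZMod p) = 2 ^ 2 := by norm_num
          rw [this]
          exact pow_ne_zero 2 h2
        exact absurd h8 (mul_ne_zero (mul_ne_zero (mul_ne_zero (mul_ne_zero h9 hD0) hi0) hρ0)
          (pow_ne_zero 2 he))
      refine ⟨(4 * D' * i * ρ * (toZMod e) ^ 2) / toZMod N', ?_⟩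
      field_simp
      linear_combination h6
    · have h3 := congrArg (toZMod (p := p)) h
      simp only [map_pow, map_mul, map_add, map_intCast, hk] at h3
      push_cast at h3
      rw [hDp, hpz] at h3
      refine ⟨toZMod N / (toZMod M) ^ 2, ?_⟩
      field_simp
      linear_combination -h3
  · -- sufficiency, unit case
    obtain ⟨y, hy⟩ := h
    have hy0 : y ≠ 0 := by
      rintro rfl
      apply hb1
      rw [← ZMod.intCast_zmod_eq_zero_iff_dvd, hy, zero_mul]
    obtain ⟨m, hm, -⟩ := hens hp2 (b₁ : ℤ_[p]) y hy0 (by rw [map_intCast, hy]; ring)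
    refine ⟨m, 1, 0, Or.inl one_ne_zero, ?_⟩
    have h1 := congrArg (fun w : ℤ_[p] => (w : ℚ_[p])) hm
    push_cast at h1
    rw [h1]
    ring
  · -- necessity, multiplicative case
    have hc0 : ¬ (p : ℤ) ∣ c := by
      rintro ⟨d, rfl⟩
      have := hsq p ⟨d, by rw [hc]; ring⟩
      exact hpi.not_isUnit this
    have hcz : (c : ZMod p) ≠ 0 := by
      rw [Ne, ZMod.intCast_zmod_eq_zero_iff_dvd]
      exact hc0
    obtain ⟨k, hk⟩ : (p : ℤ) ∣ b₂ := by
      have h1 : (p : ℤ) ∣ c * b₂ := by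
        refine ⟨112 * D' ^ 2, ?_⟩
        apply mul_left_cancel₀ hpi.ne_zero
        rw [hc, hD] at hb
        linear_combination hb
      exact (hpi.dvd_or_dvd h1).resolve_left hc0
    have hbk : c * k = 112 * D' ^ 2 := by
      have h1 : (p : ℤ) ^ 2 ≠ 0 := pow_ne_zero _ hpi.ne_zero
      apply mul_left_cancel₀ h1
      rw [hk, hD, hc] at hb
      linear_combination hb
    obtain ⟨N, M, e, h0, h⟩ := prim h
    rw [hk, hD, hc] at h
    push_cast at h
    obtain ⟨N', rfl⟩ := dvd_of_sq (x := N) (y := c * M ^ 4 +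
      21 * D' * M ^ 2 * e ^ 2 + k * e ^ 4) (by rw [h]; ring)
    have h1 : p * N' ^ 2 = c * M ^ 4 + 21 * D' * M ^ 2 * e ^ 2 + k * e ^ 4 := by
      apply mul_left_cancel₀ hp0
      linear_combination h
    have h3 := congrArg (toZMod (p := p)) h1
    simp only [map_pow, map_mul, map_add, map_natCast, map_intCast, map_ofNat, hpz] at h3
    have h5 : (c : ZMod p) * k = 112 * (D' : ZMod p) ^ 2 := by
      exact_mod_cast congrArg (Int.cast (R := ZMod p)) hbk
    set m := toZMod M with hm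
    set f := toZMod e with hf
    have hf0 : f ≠ 0 := by
      intro hf0
      rw [hf0] at h3 h0
      have h4 : (c : ZMod p) * m ^ 4 = 0 := by linear_combination -h3
      have h6 : m ^ 4 = 0 := (mul_eq_zero.1 h4).resolve_left hcz
      have h8 : m = 0 := pow_eq_zero_iff four_ne_zero |>.1 h6
      rcases h0 with h0 | h0
      · exact h0 h8
      · exact h0 rfl
    have h6 : (2 * c * m ^ 2 + 21 * D' * f ^ 2 - ρ * D' * f ^ 2) *
        (2 * c * m ^ 2 + 21 * D' * f ^ 2 + ρ * D' * f ^ 2) = 0 := by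
      linear_combination -4 * (c : ZMod p) * h3 - 4 * f ^ 4 * h5 - (D' : ZMod p) ^ 2 * f ^ 4 * hρ
    have hw : ∀ r : ZMod p, r ^ 2 = -7 → 8 * (-21 + r) = r * (1 - r) ^ 4 := by
      intro r hr
      have h3' : r ^ 3 = -7 * r := by rw [pow_succ, hr]
      have h4' : r ^ 4 = 49 := by
        have : r ^ 4 = (r ^ 2) ^ 2 := by ring
        rw [this, hr]; norm_num
      have h5' : r ^ 5 = 49 * r := by rw [pow_succ, h4']
      ring_nf
      rw [h5', h4', h3', hr]
      ring
    -- from `2 c m² = D' f² (r - 21)` get that `c D' r` is a square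
    have key : ∀ r : ZMod p, r ^ 2 = -7 → 2 * c * m ^ 2 + 21 * D' * f ^ 2 - r * D' * f ^ 2 = 0 →
        IsSquare ((c : ZMod p) * D' * r) := by
      intro r hr h8
      have hr0 : r ≠ 0 := by
        rintro rfl
        apply h7
        linear_combination hr
      have hr1 : (1 - r : ZMod p) ≠ 0 := by
        intro h
        have h1 : (8 : ZMod p) = 0 := by
          have : r = 1 := by linear_combination -h
          rw [this] at hr
          linear_combination hr
        have h3 : (2 : ZMod p) ^ 3 = 0 := by linear_combination h1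
        exact h2 (pow_eq_zero_iff three_ne_zero |>.1 h3)
      have h9 : 16 * (c : ZMod p) * m ^ 2 = D' * f ^ 2 * (r * (1 - r) ^ 4) := by
        linear_combination 8 * h8 + (D' : ZMod p) * f ^ 2 * hw r hr
      have hm0 : m ≠ 0 := by
        intro hm0
        rw [hm0] at h9
        have : (D' : ZMod p) * f ^ 2 * (r * (1 - r) ^ 4) = 0 := by linear_combination -h9
        exact absurd this (mul_ne_zero (mul_ne_zero hD0 (pow_ne_zero 2 hf0))
          (mul_ne_zero hr0 (pow_ne_zero 4 hr1)))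
      refine ⟨D' * f * r * (1 - r) ^ 2 / (4 * m), ?_⟩
      have h4 : (4 : ZMod p) ≠ 0 := by
        have : (4 : ZMod p) = 2 ^ 2 := by norm_num
        rw [this]
        exact pow_ne_zero 2 h2
      field_simp
      linear_combination h9
    rcases mul_eq_zero.1 h6 with h8 | h8
    · exact key ρ hρ h8
    · obtain ⟨z, hz⟩ := key (-ρ) (by rw [neg_sq, hρ]) (by linear_combination h8)
      exact ⟨i * z, by linear_combination i ^ 2 * hz + (c : ZMod p) * D' * ρ * hi⟩
  · -- sufficiency, multiplicative case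
    obtain ⟨z, hz⟩ := h
    have hc0 : ¬ (p : ℤ) ∣ c := by
      rintro ⟨d, rfl⟩
      have := hsq p ⟨d, by rw [hc]; ring⟩
      exact hpi.not_isUnit this
    have hcz : (c : ZMod p) ≠ 0 := by
      rw [Ne, ZMod.intCast_zmod_eq_zero_iff_dvd]
      exact hc0
    have hz0 : z ≠ 0 := by
      rintro rfl
      exact absurd hz (by rw [zero_mul]; exact mul_ne_zero (mul_ne_zero hcz hD0) hρ0)
    obtain ⟨r, hr, hrρ⟩ := hens hp2 (-7 : ℤ_[p]) ρ hρ0 (by rw [hρ, map_neg, map_ofNat])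
    have h2c : IsUnit (2 * (c : ℤ_[p])) := by
      rw [PadicInt.isUnit_iff, toZ_unit, map_mul, map_ofNat, map_intCast]
      exact mul_ne_zero h2 hcz
    obtain ⟨v, hv⟩ := h2c.exists_right_inv
    have hv' := congrArg (toZMod (p := p)) hv
    rw [map_mul, map_mul, map_ofNat, map_intCast, map_one] at hv'
    have hv0 : toZMod v ≠ 0 := by
      intro h
      rw [h, mul_zero] at hv'
      exact zero_ne_one hv'
    have h3' : ρ ^ 3 = -7 * ρ := by rw [pow_succ, hρ]
    have h4' : ρ ^ 4 = 49 := by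
      have : ρ ^ 4 = (ρ ^ 2) ^ 2 := by ring
      rw [this, hρ]; norm_num
    have h5' : ρ ^ 5 = 49 * ρ := by rw [pow_succ, h4']
    have hw : 8 * (-21 + ρ) = ρ * (1 - ρ) ^ 4 := by
      ring_nf
      rw [h5', h4', h3', hρ]
      ring
    obtain ⟨m, hm, -⟩ := hens hp2 ((D' : ℤ_[p]) * (-21 + r) * v)
      (toZMod v * z * (1 - ρ) ^ 2 / 2)
      (div_ne_zero (mul_ne_zero (mul_ne_zero hv0 hz0) (pow_ne_zero 2 hw1)) h2) (by
        rw [map_mul, map_mul, map_add, map_neg, map_ofNat, map_intCast, hrρ]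
        have h4 : (4 : ZMod p) ≠ 0 := by
          have : (4 : ZMod p) = 2 ^ 2 := by norm_num
          rw [this]
          exact pow_ne_zero 2 h2
        apply mul_left_cancel₀ h4
        have h9 : 4 * (toZMod v * z * (1 - ρ) ^ 2 / 2) ^ 2 = (toZMod v) ^ 2 * (z * z) * (1 - ρ) ^ 4 := by
          field_simp
          norm_num
        rw [h9, ← hz]
        linear_combination (-4 : ZMod p) * D' * (-21 + ρ) * toZMod v * hv' +
          (toZMod v) ^ 2 * c * D' * hw)
    have hb10 : (b₁ : ℤ_[p]) ≠ 0 := by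
      rw [hc]
      push_cast
      intro h
      rcases mul_eq_zero.1 h with h | h
      · exact hp0 h
      · rw [h, mul_zero] at h2c
        exact not_isUnit_zero h2c
    have h4 : (4 : ℤ_[p]) ≠ 0 := by norm_num
    have hfin : (b₁ : ℤ_[p]) * m ^ 4 + 21 * (D : ℤ_[p]) * m ^ 2 + b₂ = 0 := by
      apply mul_left_cancel₀ h4
      apply mul_left_cancel₀ hb10
      have hbc : (b₁ : ℤ_[p]) = p * c := by rw [hc]; push_cast; rfl
      have hDc : (D : ℤ_[p]) = p * D' := by rw [hD]; push_cast; rfl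
      have hbb : (b₁ : ℤ_[p]) * b₂ = 112 * (D : ℤ_[p]) ^ 2 := by exact_mod_cast congrArg (Int.cast (R := ℤ_[p])) hb
      have hx : 2 * ((b₁ : ℤ_[p]) * m ^ 2) = D * (-21 + r) := by
        rw [hm, hbc, hDc]
        linear_combination (p : ℤ_[p]) * D' * (-21 + r) * hv
      linear_combination (2 * ((b₁ : ℤ_[p]) * m ^ 2) + D * (-21 + r) + 42 * D) * hx + 4 * hbb +
        (D : ℤ_[p]) ^ 2 * hr
    refine ⟨0, m, 1, Or.inr one_ne_zero, ?_⟩
    have h1 := congrArg (fun w : ℤ_[p] => (w : ℚ_[p])) hfin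
    have h21 : ((21 : ℤ_[p]) : ℚ_[p]) = 21 := by exact_mod_cast PadicInt.coe_natCast 21
    push_cast at h1 ⊢
    rw [h21] at h1
    linear_combination -h1

end Pool.Agent.R413.TI
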