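import Pool.Agent.H68.L.R_pool_sql_team_seeded_b0a926ef.R413.TI.StmG
import Pool.Agent.H68.L.R_pool_sql_team_seeded_b0a926ef.R413.TI.Split1

/-!
# GE-SPL: local solubility at the split primes, any curve (MP_e2b281_nt)
-/

set_option autoImplicit false

namespace Pool.Agent.R413.TI

open Split1P PadicInt in
theorem splg : SPLG := by
  intro p hp a b D D' b₁ b₂ r hp2 hb hdisc hbs hr hD hD' hsq hbb
  have hpi : Prime (p : ℤ) := Nat.prime_iff_prime_int.1 hp.out
  have h2 : (2 : ZMod p) ≠ 0 := two_ne hp2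
  obtain ⟨β, hβ⟩ := hbs
  have hbz : (b : ZMod p) ≠ 0 := by
    rw [Ne, ZMod.intCast_zmod_eq_zero_iff_dvd]
    exact hb
  have hβ0 : β ≠ 0 := by
    rintro rfl
    exact hbz (by rw [hβ, mul_zero])
  have hr0 : r ≠ 0 := by
    rintro rfl
    apply hbz
    linear_combination hr
  have hD0 : (D' : ZMod p) ≠ 0 := by
    rw [Ne, ZMod.intCast_zmod_eq_zero_iff_dvd]
    exact hD'
  have hp0 : (p : ℤ_[p]) ≠ 0 := p_ne
  have hpz : (p : ZMod p) = 0 := ZMod.natCast_self p
  have hDp : ((D : ℤ) : ZMod p) = 0 := by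
    rw [hD]; push_cast; rw [hpz, zero_mul]
  refine ⟨fun hb1 => ⟨fun h => ?_, fun h => ?_⟩, fun c hc => ⟨fun h => ?_, fun h => ?_⟩⟩
  · -- necessity, unit case
    obtain ⟨k, hk⟩ : (p : ℤ) ^ 2 ∣ b₂ := by
      have h1 : IsCoprime ((p : ℤ) ^ 2) b₁ :=
        ((Prime.coprime_iff_not_dvd hpi).2 hb1).pow_left
      apply h1.dvd_of_dvd_mul_left
      rw [hbb, hD]
      exact ⟨b * D' ^ 2, by ring⟩
    have hbk : b₁ * k = b * D' ^ 2 := by
      have h1 : (p : ℤ) ^ 2 ≠ 0 := pow_ne_zero _ hpi.ne_zero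
      apply mul_left_cancel₀ h1
      rw [hk, hD] at hbb
      linear_combination hbb
    obtain ⟨N, M, e, h0, h⟩ := prim h
    have hb10 : (b₁ : ZMod p) ≠ 0 := by
      rw [Ne, ZMod.intCast_zmod_eq_zero_iff_dvd]
      exact hb1
    by_cases hM : toZMod M = 0
    · obtain ⟨M', rfl⟩ := (toZ_zero M).1 hM
      have he : toZMod e ≠ 0 := by
        rcases h0 with h0 | h0
        · exact absurd hM h0
        · exact h0
      rw [hk, hD] at h
      push_cast at h
      obtain ⟨N', rfl⟩ := dvd_of_sq (x := N) (y := b₁ * p ^ 3 * M' ^ 4 +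
        a * (p * D') * p * M' ^ 2 * e ^ 2 + p * k * e ^ 4) (by rw [h]; ring)
      have h1 : N' ^ 2 = p ^ 2 * b₁ * M' ^ 4 + a * p * D' * M' ^ 2 * e ^ 2 + k * e ^ 4 := by
        apply mul_left_cancel₀ (pow_ne_zero 2 hp0)
        linear_combination h
      have h3 := congrArg (toZMod (p := p)) h1
      simp only [map_pow, map_mul, map_add, map_natCast, map_intCast, hpz] at h3
      have h4 : (toZMod N') ^ 2 = (k : ZMod p) * (toZMod e) ^ 4 := by
        linear_combination h3
      have h5 : (b₁ : ZMod p) * k = b * (D' : ZMod p) ^ 2 := by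
        exact_mod_cast congrArg (Int.cast (R := ZMod p)) hbk
      have h6 : (b₁ : ZMod p) * (toZMod N') ^ 2 = (D' * β * (toZMod e) ^ 2) ^ 2 := by
        linear_combination (b₁ : ZMod p) * h4 + (toZMod e) ^ 4 * h5 +
          (D' : ZMod p) ^ 2 * (toZMod e) ^ 4 * hβ
      have hN0 : toZMod N' ≠ 0 := by
        intro h7'
        rw [h7'] at h6
        have h8 : (D' * β * (toZMod e) ^ 2 : ZMod p) = 0 := by
          have : (D' * β * (toZMod e) ^ 2 : ZMod p) ^ 2 = 0 := by rw [← h6]; ring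
          exact pow_eq_zero_iff two_ne_zero |>.1 this
        exact absurd h8 (mul_ne_zero (mul_ne_zero hD0 hβ0) (pow_ne_zero 2 he))
      refine ⟨(D' * β * (toZMod e) ^ 2) / toZMod N', ?_⟩
      field_simp
      linear_combination h6
    · have h3 := congrArg (toZMod (p := p)) h
      simp only [map_pow, map_mul, map_add, map_intCast, hk] at h3
      push_cast at h3
      rw [hDp, hpz] at h3
      refine ⟨toZMod N / (toZMod M) ^ 2, ?_⟩
      field_simp
      linear_combination -h3
  · -- sufficiency, unit case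
    obtain ⟨y, hy⟩ := h
    have hy0 : y ≠ 0 := by
      rintro rfl
      apply hb1
      rw [← ZMod.intCast_zmod_eq_zero_iff_dvd, hy, zero_mul]
    obtain ⟨m, hm, -⟩ := hens hp2 (b₁ : ℤ_[p]) y hy0 (by rw [map_intCast, hy]; ring)
    refine ⟨m, 1, 0, Or.inl one_ne_zero, ?_⟩
    have h1 := congrArg (fun w : ℤ_[p] => (w : ℚ_[p])) hm
    push_cast at h1
    rw [h1]
    ring
  · -- necessity, multiplicative case
    have hc0 : ¬ (p : ℤ) ∣ c := by
      rintro ⟨d, rfl⟩
      have := hsq p ⟨d, by rw [hc]; ring⟩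
      exact hpi.not_isUnit this
    have hcz : (c : ZMod p) ≠ 0 := by
      rw [Ne, ZMod.intCast_zmod_eq_zero_iff_dvd]
      exact hc0
    obtain ⟨k, hk⟩ : (p : ℤ) ∣ b₂ := by
      have h1 : (p : ℤ) ∣ c * b₂ := by
        refine ⟨b * D' ^ 2, ?_⟩
        apply mul_left_cancel₀ hpi.ne_zero
        rw [hc, hD] at hbb
        linear_combination hbb
      exact (hpi.dvd_or_dvd h1).resolve_left hc0
    have hbk : c * k = b * D' ^ 2 := by
      have h1 : (p : ℤ) ^ 2 ≠ 0 := pow_ne_zero _ hpi.ne_zero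
      apply mul_left_cancel₀ h1
      rw [hk, hD, hc] at hbb
      linear_combination hbb
    obtain ⟨N, M, e, h0, h⟩ := prim h
    rw [hk, hD, hc] at h
    push_cast at h
    obtain ⟨N', rfl⟩ := dvd_of_sq (x := N) (y := c * M ^ 4 +
      a * D' * M ^ 2 * e ^ 2 + k * e ^ 4) (by rw [h]; ring)
    have h1 : p * N' ^ 2 = c * M ^ 4 + a * D' * M ^ 2 * e ^ 2 + k * e ^ 4 := by
      apply mul_left_cancel₀ hp0
      linear_combination h
    have h3 := congrArg (toZMod (p := p)) h1
    simp only [map_pow, map_mul, map_add, map_natCast, map_intCast, hpz] at h3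
    have h5 : (c : ZMod p) * k = b * (D' : ZMod p) ^ 2 := by
      exact_mod_cast congrArg (Int.cast (R := ZMod p)) hbk
    set m := toZMod M with hm
    set f := toZMod e with hf
    have hf0 : f ≠ 0 := by
      intro hf0
      rw [hf0] at h3 h0
      have h4 : (c : ZMod p) * m ^ 4 = 0 := by linear_combination -h3
      have h6 : m ^ 4 = 0 := (mul_eq_zero.1 h4).resolve_left hcz
      have h8 : m = 0 := pow_eq_zero_iff four_ne_zero |>.1 h6
      rcases h0 with h0 | h0
      · exact h0 h8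
      · exact h0 rfl
    set r₂ : ZMod p := -a - r with hr2
    have hrr : r * r₂ = b := by rw [hr2]; linear_combination -hr
    have hr20 : r₂ ≠ 0 := by
      intro h
      rw [h, mul_zero] at hrr
      exact hbz hrr.symm
    have h6 : (c * m ^ 2 - r * (D' * f ^ 2)) * (c * m ^ 2 - r₂ * (D' * f ^ 2)) = 0 := by
      have e1 : (c * m ^ 2 - r * (D' * f ^ 2)) * (c * m ^ 2 - r₂ * (D' * f ^ 2)) =
          (c * m ^ 2) ^ 2 - (r + r₂) * (c * m ^ 2) * (D' * f ^ 2) + (r * r₂) * (D' * f ^ 2) ^ 2 := by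
        ring
      have e2 : r + r₂ = -a := by rw [hr2]; ring
      rw [e1, e2, hrr]
      linear_combination -(c : ZMod p) * h3 - f ^ 4 * h5
    rcases mul_eq_zero.1 h6 with h8 | h8
    · refine ⟨c * m / f, ?_⟩
      field_simp
      linear_combination -h8
    · refine ⟨c * m * β / (f * r₂), ?_⟩
      field_simp
      linear_combination (-β ^ 2) * h8 + (D' : ZMod p) * f ^ 2 * r₂ * hrr +
        (D' : ZMod p) * f ^ 2 * r₂ * hβ
  · -- sufficiency, multiplicative case
    obtain ⟨z, hz⟩ := h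
    have hc0 : ¬ (p : ℤ) ∣ c := by
      rintro ⟨d, rfl⟩
      have := hsq p ⟨d, by rw [hc]; ring⟩
      exact hpi.not_isUnit this
    have hcz : (c : ZMod p) ≠ 0 := by
      rw [Ne, ZMod.intCast_zmod_eq_zero_iff_dvd]
      exact hc0
    have hz0 : z ≠ 0 := by
      rintro rfl
      exact absurd hz (by rw [zero_mul]; exact mul_ne_zero (mul_ne_zero hcz hD0) hr0)
    have hδ0 : (2 * r + a : ZMod p) ≠ 0 := by
      intro h
      apply hdisc
      rw [← ZMod.intCast_zmod_eq_zero_iff_dvd]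
      push_cast
      linear_combination (2 * r + a) * h - 4 * hr
    obtain ⟨δ, hδ, hδr⟩ := hens hp2 ((a : ℤ_[p]) ^ 2 - 4 * b) (2 * r + a) hδ0 (by
      rw [map_sub, map_pow, map_mul, map_ofNat, map_intCast, map_intCast]
      linear_combination -4 * hr)
    have hu2 : IsUnit (2 : ℤ_[p]) := by
      rw [PadicInt.isUnit_iff, toZ_unit, map_ofNat]
      exact h2
    obtain ⟨u, hu⟩ := hu2.exists_right_inv
    have hu' := congrArg (toZMod (p := p)) hu
    rw [map_mul, map_ofNat, map_one] at hu'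
    set E : ℤ_[p] := u * (δ - a) with hE
    have hEr : toZMod E = r := by
      rw [hE, map_mul, map_sub, hδr, map_intCast]
      linear_combination r * hu'
    have hEq : E ^ 2 + a * E + b = 0 := by
      have h4 : (4 : ℤ_[p]) ≠ 0 := by norm_num
      apply mul_left_cancel₀ h4
      have e1 : 2 * E = δ - a := by rw [hE]; linear_combination (δ - a) * hu
      linear_combination (2 * E + δ + a) * e1 + hδ
    have hcu : IsUnit (c : ℤ_[p]) := by
      rw [PadicInt.isUnit_iff, toZ_unit, map_intCast]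
      exact hcz
    obtain ⟨v, hv⟩ := hcu.exists_right_inv
    have hv' := congrArg (toZMod (p := p)) hv
    rw [map_mul, map_intCast, map_one] at hv'
    have hv0 : toZMod v ≠ 0 := by
      intro h
      rw [h, mul_zero] at hv'
      exact zero_ne_one hv'
    obtain ⟨m, hm, -⟩ := hens hp2 ((D' : ℤ_[p]) * v * E) (z * toZMod v) (mul_ne_zero hz0 hv0) (by
      rw [map_mul, map_mul, map_intCast, hEr]
      have e1 : (z * toZMod v) ^ 2 = (z * z) * (toZMod v) ^ 2 := by ring
      rw [e1, ← hz]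
      linear_combination -(D' : ZMod p) * r * toZMod v * hv')
    have hb10 : (b₁ : ℤ_[p]) ≠ 0 := by
      rw [hc]
      push_cast
      intro h
      rcases mul_eq_zero.1 h with h | h
      · exact hp0 h
      · rw [h] at hcu
        exact not_isUnit_zero hcu
    have hfin : (b₁ : ℤ_[p]) * m ^ 4 + (a * D : ℤ_[p]) * m ^ 2 + b₂ = 0 := by
      apply mul_left_cancel₀ hb10
      have hbc : (b₁ : ℤ_[p]) = p * c := by rw [hc]; push_cast; rfl
      have hDc : (D : ℤ_[p]) = p * D' := by rw [hD]; push_cast; rfl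
      have hbb' : (b₁ : ℤ_[p]) * b₂ = b * (D : ℤ_[p]) ^ 2 := by
        exact_mod_cast congrArg (Int.cast (R := ℤ_[p])) hbb
      have hx : (b₁ : ℤ_[p]) * m ^ 2 = D * E := by
        rw [hm, hbc, hDc]
        linear_combination (p : ℤ_[p]) * D' * E * hv
      linear_combination ((b₁ : ℤ_[p]) * m ^ 2 + D * E + a * D) * hx + hbb' +
        (D : ℤ_[p]) ^ 2 * hEq
    refine ⟨0, m, 1, Or.inr one_ne_zero, ?_⟩
    have h1 := congrArg (fun w : ℤ_[p] => (w : ℚ_[p])) hfin
    push_cast at h1 ⊢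
    linear_combination -h1

end Pool.Agent.R413.TI
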