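import Mathlib

/-!
Project TI (helper413): the two 2-isogeny Selmer groups of `y² = x³ + 21 D x² + 112 D² x` and of the
2-isogenous curve `y² = x³ - 42 D x² - 7 D² x`. Statements of the local pieces.
-/

set_option autoImplicit false

namespace Pool.Agent.R413.TI

/-- the quartic `N² = b₁ M⁴ + a M² e² + b₂ e⁴` has a nontrivial solution over `K` -/
def Sol (K : Type) [Field K] (a b₁ b₂ : ℤ) : Prop :=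
  ∃ N M e : K, (M ≠ 0 ∨ e ≠ 0) ∧
    N ^ 2 = (b₁ : K) * M ^ 4 + (a : K) * M ^ 2 * e ^ 2 + (b₂ : K) * e ^ 4

/-- TI-GOOD: the odd primes of good reduction -/
def GOOD : Prop := ∀ (l : ℕ) [Fact l.Prime] (a b₁ b₂ : ℤ), l ≠ 2 → ¬ (l : ℤ) ∣ b₁ →
  ¬ (l : ℤ) ∣ b₂ → ¬ (l : ℤ) ∣ a ^ 2 - 4 * b₁ * b₂ → Sol ℚ_[l] a b₁ b₂

/-- TI-TWO: the prime 2 -/
def TWO : Prop := ∀ D b₁ b₂ : ℤ, D % 4 = 1 → Squarefree b₁ →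
  (b₁ * b₂ = 112 * D ^ 2 → Sol ℚ_[2] (21 * D) b₁ b₂ → b₁ % 2 = 1) ∧
  (b₁ * b₂ = 112 * D ^ 2 → b₁ % 4 = 1 → Sol ℚ_[2] (21 * D) b₁ b₂) ∧
  (b₁ * b₂ = -7 * D ^ 2 → Sol ℚ_[2] (-42 * D) b₁ b₂ → b₁ % 4 = 1) ∧
  (b₁ * b₂ = -7 * D ^ 2 → b₁ % 4 = 1 → Sol ℚ_[2] (-42 * D) b₁ b₂)

/-- TI-INERT: a prime factor `q` of `D` which is inert in `ℚ(√-7)` -/
def INERT : Prop := ∀ (q : ℕ) [Fact q.Prime] (D D' b₁ b₂ : ℤ), q % 4 = 1 →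
  ¬ IsSquare (-7 : ZMod q) → D = q * D' → ¬ (q : ℤ) ∣ D' → Squarefree b₁ →
  (b₁ * b₂ = 112 * D ^ 2 → (Sol ℚ_[q] (21 * D) b₁ b₂ ↔ ¬ (q : ℤ) ∣ b₁)) ∧
  (b₁ * b₂ = -7 * D ^ 2 → (Sol ℚ_[q] (-42 * D) b₁ b₂ ↔ ¬ (q : ℤ) ∣ b₁))

/-- TI-SPLIT, first curve: a prime factor `p` of `D` which splits in `ℚ(√-7)` -/
def SPLIT1 : Prop := ∀ (p : ℕ) [Fact p.Prime] (D D' b₁ b₂ : ℤ) (ρ : ZMod p), p % 4 = 1 →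
  ρ ^ 2 = -7 → D = p * D' → ¬ (p : ℤ) ∣ D' → Squarefree b₁ → b₁ * b₂ = 112 * D ^ 2 →
  (¬ (p : ℤ) ∣ b₁ → (Sol ℚ_[p] (21 * D) b₁ b₂ ↔ IsSquare (b₁ : ZMod p))) ∧
  (∀ c : ℤ, b₁ = p * c → (Sol ℚ_[p] (21 * D) b₁ b₂ ↔ IsSquare ((c : ZMod p) * (D' : ZMod p) * ρ)))

/-- TI-SPLIT, second curve -/
def SPLIT2 : Prop := ∀ (p : ℕ) [Fact p.Prime] (D D' b₁ b₂ : ℤ) (ρ : ZMod p), p % 4 = 1 →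
  ρ ^ 2 = -7 → D = p * D' → ¬ (p : ℤ) ∣ D' → Squarefree b₁ → b₁ * b₂ = -7 * D ^ 2 →
  (¬ (p : ℤ) ∣ b₁ → (Sol ℚ_[p] (-42 * D) b₁ b₂ ↔ IsSquare (b₁ : ZMod p))) ∧
  (∀ c : ℤ, b₁ = p * c → (Sol ℚ_[p] (-42 * D) b₁ b₂ ↔ IsSquare ((c : ZMod p) * (D' : ZMod p) * ρ)))

end Pool.Agent.R413.TI
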